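import Pool.Agent.R473.HD.Pair

/-!
# Monomials with rational exponents and algebraic coefficients
-/

set_option autoImplicit false

namespace Pool.Agent.R473.HD

open Finset Polynomial Pool.Agent.R356 Pool.Agent.TH456.TM Pool.Agent.R473.JC

section
variable {R : Type} [CommRing R] [IsDomain R] [Algebra R ℝ]

lemma alg_zpow {y : ℝ} (hy : IsAlgebraic R y) (p : ℤ) : IsAlgebraic R (y ^ p) := by
  obtain ⟨n, rfl | rfl⟩ := p.eq_nat_or_neg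
  · rw [zpow_natCast]; exact hy.pow n
  · rw [zpow_neg, zpow_natCast]; exact (hy.pow n).inv

lemma alg_of_zpow {y : ℝ} (m : ℤ) (hm : m ≠ 0) (hy : IsAlgebraic R (y ^ m)) : IsAlgebraic R y := by
  obtain ⟨n, rfl | rfl⟩ := m.eq_nat_or_neg
  · rw [zpow_natCast] at hy
    exact IsAlgebraic.of_pow (by omega) hy
  · rw [zpow_neg, zpow_natCast] at hy
    have h1 := hy.inv
    rw [inv_inv] at h1
    exact IsAlgebraic.of_pow (by omega) h1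

end

/-- the ratio of suitable powers of two monomials is a power of `x` -/
theorem alg_mono (x z α β : ℝ) (hx : 0 < x) (hz : 0 < z) (hα : α ≠ 0) (hβ : β ≠ 0)
    (hαa : IsAlgebraic ℚ α) (hβa : IsAlgebraic ℚ β) (a b c d : ℚ) (h : a * d - b * c ≠ 0) :
    IsAlgebraic (Algebra.adjoin ℤ ({α * z ^ (a : ℝ) * x ^ (b : ℝ),
      β * z ^ (c : ℝ) * x ^ (d : ℝ)} : Set ℝ)) x := by
  obtain ⟨u, hu⟩ : ∃ u : ℝ, u = α * z ^ (a : ℝ) * x ^ (b : ℝ) := ⟨_, rfl⟩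
  obtain ⟨v, hv⟩ : ∃ v : ℝ, v = β * z ^ (c : ℝ) * x ^ (d : ℝ) := ⟨_, rfl⟩
  rw [← hu, ← hv]
  have huR : IsAlgebraic (Algebra.adjoin ℤ ({u, v} : Set ℝ)) u :=
    isAlgebraic_algebraMap (⟨u, mem_u u v⟩ : Algebra.adjoin ℤ ({u, v} : Set ℝ))
  have hvR : IsAlgebraic (Algebra.adjoin ℤ ({u, v} : Set ℝ)) v :=
    isAlgebraic_algebraMap (⟨v, mem_v u v⟩ : Algebra.adjoin ℤ ({u, v} : Set ℝ))
  have hinj : Function.Injective (algebraMap ℤ (Algebra.adjoin ℤ ({u, v} : Set ℝ))) :=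
    (algebraMap ℤ (Algebra.adjoin ℤ ({u, v} : Set ℝ))).injective_int
  have hext : ∀ y : ℝ, IsAlgebraic ℚ y → IsAlgebraic (Algebra.adjoin ℤ ({u, v} : Set ℝ)) y :=
    fun y hy => ((IsFractionRing.isAlgebraic_iff ℤ ℚ ℝ).2 hy).extendScalars hinj
  -- the common denominator
  obtain ⟨n, hn⟩ : ∃ n : ℤ, n = a.den * b.den * c.den * d.den := ⟨_, rfl⟩
  have hn0 : n ≠ 0 := by rw [hn]; exact_mod_cast (by positivity)
  have hcl : ∀ y : ℚ, (y.den : ℤ) ∣ n → ∃ m : ℤ, (m : ℚ) = n * y := by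
    intro y hy
    obtain ⟨k, hk⟩ := hy
    refine ⟨k * y.num, ?_⟩
    rw [hk]
    push_cast
    have := Rat.mul_den_eq_num y
    rw [← this]; ring
  obtain ⟨a1, ha1⟩ := hcl a ⟨b.den * c.den * d.den, by rw [hn]; ring⟩
  obtain ⟨b1, hb1⟩ := hcl b ⟨a.den * c.den * d.den, by rw [hn]; ring⟩
  obtain ⟨c1, hc1⟩ := hcl c ⟨a.den * b.den * d.den, by rw [hn]; ring⟩
  obtain ⟨d1, hd1⟩ := hcl d ⟨a.den * b.den * c.den, by rw [hn]; ring⟩
  have hm : b1 * c1 - a1 * d1 ≠ 0 := by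
    intro h0
    have h1 : (b1 : ℚ) * c1 - a1 * d1 = 0 := by exact_mod_cast h0
    rw [ha1, hb1, hc1, hd1] at h1
    have h2 : (n : ℚ) ^ 2 * (a * d - b * c) = 0 := by linear_combination -h1
    rcases mul_eq_zero.1 h2 with h3 | h3
    · exact hn0 (by exact_mod_cast pow_eq_zero_iff (two_ne_zero) |>.1 h3)
    · exact h h3
  have hU : ∀ (y w : ℚ) (p : ℤ), (z ^ (y : ℝ) * x ^ (w : ℝ)) ^ p =
      z ^ ((y : ℝ) * p) * x ^ ((w : ℝ) * p) := by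
    intro y w p
    rw [mul_zpow, Real.rpow_mul hz.le, Real.rpow_mul hx.le, Real.rpow_intCast, Real.rpow_intCast]
  have ha1' : (a1 : ℝ) = n * a := by exact_mod_cast congrArg (fun q : ℚ => (q : ℝ)) ha1
  have hb1' : (b1 : ℝ) = n * b := by exact_mod_cast congrArg (fun q : ℚ => (q : ℝ)) hb1
  have hc1' : (c1 : ℝ) = n * c := by exact_mod_cast congrArg (fun q : ℚ => (q : ℝ)) hc1
  have hd1' : (d1 : ℝ) = n * d := by exact_mod_cast congrArg (fun q : ℚ => (q : ℝ)) hd1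
  have key : (u * α⁻¹) ^ (n * c1) * ((v * β⁻¹) ^ (n * a1))⁻¹ = x ^ (b1 * c1 - a1 * d1) := by
    have e1 : u * α⁻¹ = z ^ (a : ℝ) * x ^ (b : ℝ) := by rw [hu]; field_simp
    have e2 : v * β⁻¹ = z ^ (c : ℝ) * x ^ (d : ℝ) := by rw [hv]; field_simp
    rw [e1, e2, hU, hU, ← Real.rpow_intCast x, mul_inv, ← Real.rpow_neg hz.le,
      ← Real.rpow_neg hx.le]
    have e3 : z ^ ((a : ℝ) * ((n * c1 : ℤ) : ℝ)) * x ^ ((b : ℝ) * ((n * c1 : ℤ) : ℝ)) *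
        (z ^ (-((c : ℝ) * ((n * a1 : ℤ) : ℝ))) * x ^ (-((d : ℝ) * ((n * a1 : ℤ) : ℝ)))) =
        z ^ ((a : ℝ) * ((n * c1 : ℤ) : ℝ) + -((c : ℝ) * ((n * a1 : ℤ) : ℝ))) *
        x ^ ((b : ℝ) * ((n * c1 : ℤ) : ℝ) + -((d : ℝ) * ((n * a1 : ℤ) : ℝ))) := by
      rw [Real.rpow_add hz, Real.rpow_add hx]; ring
    rw [e3]
    have e4 : (a : ℝ) * ((n * c1 : ℤ) : ℝ) + -((c : ℝ) * ((n * a1 : ℤ) : ℝ)) = 0 := by
      push_cast
      rw [ha1', hc1']; ring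
    have e5 : (b : ℝ) * ((n * c1 : ℤ) : ℝ) + -((d : ℝ) * ((n * a1 : ℤ) : ℝ)) =
        ((b1 * c1 - a1 * d1 : ℤ) : ℝ) := by
      push_cast
      rw [hb1', hd1', ha1', hc1']; ring
    rw [e4, e5, Real.rpow_zero, one_mul]
  refine alg_of_zpow (b1 * c1 - a1 * d1) hm ?_
  rw [← key]
  exact (alg_zpow (huR.mul (hext α hαa).inv) _).mul (alg_zpow (hvR.mul (hext β hβa).inv) _).inv

/-- the three types of numbers `x` -/
theorem hard_mono (x : ℝ)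
    (hx : x = Real.exp 1 ∨ x = Real.pi ∨ ∃ q : ℚ, 1 < q ∧ x = Real.log q) (z : ℝ) (hz : 0 < z)
    (α β : ℝ) (hα : α ≠ 0) (hβ : β ≠ 0) (hαa : IsAlgebraic ℚ α) (hβa : IsAlgebraic ℚ β)
    (a b c d : ℚ) (h : a * d - b * c ≠ 0) (r : ℕ) (θ : ℝ) (hθ : 0 ≤ θ) (hθ1 : θ < 1) :
    Hard r θ (α * z ^ (a : ℝ) * x ^ (b : ℝ)) ∨ Hard r θ (β * z ^ (c : ℝ) * x ^ (d : ℝ)) := by
  have hx0 : 0 < x := by
    rcases hx with rfl | rfl | ⟨q, hq, rfl⟩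
    · exact Real.exp_pos _
    · exact Real.pi_pos
    · exact Real.log_pos (by exact_mod_cast hq)
  have hx' : x = Real.exp 1 ∨ x = Real.pi ∨ ∃ q : ℚ, 0 < q ∧ q ≠ 1 ∧ x = Real.log q := by
    rcases hx with h1 | h1 | ⟨q, hq, h1⟩
    · exact Or.inl h1
    · exact Or.inr (Or.inl h1)
    · exact Or.inr (Or.inr ⟨q, by linarith, hq.ne', h1⟩)
  exact hard_pair _ _ (jointR_of_alg x (Pool.Agent.R473.JC.measT_three x hx') _ _
    (alg_mono x z α β hx0 hz hα hβ hαa hβa a b c d h)) r θ hθ hθ1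

end Pool.Agent.R473.HD
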