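import Pool.Agent.R473.HD.Alg

/-!
# The vectors `(a, b)` for which `z^a x^b` is not hard lie on a line
-/

set_option autoImplicit false

namespace Pool.Agent.R473.HD

open Finset Polynomial Module Pool.Agent.W472.AC Pool.Agent.R473.EC Pool.Agent.TH629.ExpDig
  Pool.Agent.R356 Pool.Agent.R473.FP

lemma digit_one (b : ℕ) (l : ℕ) (hl : 1 ≤ l) : digit b 1 l = 0 := by
  unfold digit
  obtain ⟨m, rfl⟩ : ∃ m, l = m + 1 := ⟨l - 1, by omega⟩
  have e : (1 : ℝ) * (b : ℝ) ^ (m + 1) = (((b : ℤ) ^ (m + 1) : ℤ) : ℝ) := by push_cast; ring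
  rw [e, Int.floor_intCast, pow_succ]
  exact Int.mul_emod_left _ _

lemma blockPoly_one (b p n : ℕ) : blockPoly b 1 p n = 0 := by
  unfold blockPoly
  refine Finset.sum_eq_zero fun l hl => ?_
  rw [digit_one b (p + l) (by have := (mem_Icc.1 hl).1; omega)]
  simp

/-- the digits of `1` are zero -/
theorem not_hard_one (r : ℕ) (hr : 1 ≤ r) (θ : ℝ) : ¬ Hard r θ 1 := by
  rintro ⟨c, hc, h⟩
  obtain ⟨N, hN, h1⟩ := h 2 le_rfl 1
  have h2 := h1 0 ∅ (by rw [Nat.cast_zero]; positivity) (fun p q hpq _ _ _ _ => by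
    refine ⟨fun j => if j = 0 then 0 else 1, ?_, fun j => ?_, ?_⟩
    · intro h0
      have h3 := congrFun h0 ⟨1, by omega⟩
      have h4 : (⟨1, by omega⟩ : Fin (r + 1)) ≠ 0 := by
        intro h5
        exact absurd (congrArg Fin.val h5) (by simp)
      simp only [h4, if_false, Pi.zero_apply] at h3
      exact one_ne_zero h3
    · dsimp only
      split_ifs
      · rw [natDegree_zero]
      · rw [natDegree_one]
    · have h5 : ∑ j : Fin (r + 1), (if j = 0 then (0 : ℚ[X]) else 1) *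
          blockPoly 2 1 p (q - p) ^ (j : ℕ) = 0 := by
        refine Finset.sum_eq_zero fun j _ => ?_
        by_cases hj : j = 0
        · rw [if_pos hj, zero_mul]
        · have h6 : (j : ℕ) ≠ 0 := fun h7 => hj (Fin.ext h7)
          rw [if_neg hj, one_mul, blockPoly_one, zero_pow h6]
      rw [h5]
      exact dvd_zero _)
  have hN1 : (1 : ℝ) ≤ N := by exact_mod_cast hN
  have h3 : 0 ≤ c * Real.log N := mul_nonneg hc.le (Real.log_nonneg hN1)
  rw [card_empty, Nat.cast_zero] at h2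
  linarith

/-- the vectors `(a, b)` of rational numbers such that for some real algebraic `α ≠ 0` the number
`α z^a x^b` is not hard -/
def Easy (r : ℕ) (θ z x : ℝ) : Set (ℚ × ℚ) :=
  {p | ∃ α : ℝ, α ≠ 0 ∧ IsAlgebraic ℚ α ∧ ¬ Hard r θ (α * z ^ (p.1 : ℝ) * x ^ (p.2 : ℝ))}

/-- these vectors lie on a line through the origin -/
theorem line (x : ℝ) (hx : x = Real.exp 1 ∨ x = Real.pi ∨ ∃ q : ℚ, 1 < q ∧ x = Real.log q) (z : ℝ)
    (hz : 0 < z) (r : ℕ) (θ : ℝ) (hθ : 0 ≤ θ) (hθ1 : θ < 1) (p q : ℚ × ℚ) (hp : p ∈ Easy r θ z x)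
    (hq : q ∈ Easy r θ z x) : p.1 * q.2 = p.2 * q.1 := by
  obtain ⟨α, hα, hαa, h1⟩ := hp
  obtain ⟨β, hβ, hβa, h2⟩ := hq
  by_contra hne
  rcases hard_mono x hx z hz α β hα hβ hαa hβa p.1 p.2 q.1 q.2 (sub_ne_zero.2 hne) r θ hθ hθ1 with
    h | h
  · exact h1 h
  · exact h2 h

/-- if `z^a x^b` is algebraic then `(a, b)` is one of them -/
theorem mem_of_alg (x z : ℝ) (hx : 0 < x) (hz : 0 < z) (r : ℕ) (hr : 1 ≤ r) (θ : ℝ) (a b : ℚ)
    (h : IsAlgebraic ℚ (z ^ (a : ℝ) * x ^ (b : ℝ))) : (a, b) ∈ Easy r θ z x := by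
  have h0 : z ^ (a : ℝ) * x ^ (b : ℝ) ≠ 0 :=
    mul_ne_zero (Real.rpow_pos_of_pos hz _).ne' (Real.rpow_pos_of_pos hx _).ne'
  refine ⟨(z ^ (a : ℝ) * x ^ (b : ℝ))⁻¹, inv_ne_zero h0, h.inv, ?_⟩
  dsimp only
  rw [mul_assoc, inv_mul_cancel₀ h0]
  exact not_hard_one r hr θ

end Pool.Agent.R473.HD
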