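import Pool.Agent.R473.FP.JointPred

/-!
# Of two numbers at least one has digits which are hard to predict in every base
-/

set_option autoImplicit false

namespace Pool.Agent.R473.HD

open Finset Polynomial Pool.Agent.R356 Pool.Agent.R473.EC

/-- in every base, for infinitely many `N`, the first `N` digits of `x` cannot be cut by at most
`c log N` cuts into blocks which satisfy relations of degree `≤ r` with coefficients of degree at
most `N ^ θ` -/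
def Hard (r : ℕ) (θ x : ℝ) : Prop :=
  ∃ c : ℝ, 0 < c ∧ ∀ b : ℕ, 2 ≤ b → ∀ N₀ : ℕ, ∃ N : ℕ, N₀ ≤ N ∧ ∀ (k : ℕ) (E : Finset ℕ),
    (k : ℝ) ≤ (N : ℝ) ^ θ → Pool.Agent.R473.FP.Cut b x r k N E → c * Real.log N < E.card

/-- the elementary estimate -/
theorem contra (A θ : ℝ) (hA : 1 ≤ A) (hθ : 0 ≤ θ) (hθ1 : θ < 1) : ∃ c : ℝ, 0 < c ∧
    ∀ b b' : ℕ, 2 ≤ b → 2 ≤ b' → ∀ N0 N0' : ℕ, ∃ N N' : ℕ, N0 ≤ N ∧ N0' ≤ N' ∧
      ∀ k k' n n' : ℕ, (k : ℝ) ≤ (N : ℝ) ^ θ → (k' : ℝ) ≤ (N' : ℝ) ^ θ →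
        (n : ℝ) ≤ c * Real.log N → (n' : ℝ) ≤ c * Real.log N' →
        A ^ (n + n' + 1) * ((k + 1) * Real.log b + (k' + 1) * Real.log b') <
          min (N * Real.log b) (N' * Real.log b') := by
  obtain ⟨η, hη⟩ : ∃ η : ℝ, η = (1 - θ) / 2 := ⟨_, rfl⟩
  have hη0 : 0 < η := by rw [hη]; linarith
  have hlA : 0 ≤ Real.log A := Real.log_nonneg hA
  obtain ⟨c, hc⟩ : ∃ c : ℝ, c = η / (2 * (Real.log A + 1)) := ⟨_, rfl⟩
  have hc0 : 0 < c := by rw [hc]; positivity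
  have hcA : 2 * c * Real.log A ≤ η := by
    have h1 : 2 * c * (Real.log A + 1) = η := by rw [hc]; field_simp
    nlinarith
  refine ⟨c, hc0, fun b b' hb hb' N0 N0' => ?_⟩
  have hbR : (2 : ℝ) ≤ b := by exact_mod_cast hb
  have hbR' : (2 : ℝ) ≤ b' := by exact_mod_cast hb'
  have hlb : ∀ t : ℝ, 2 ≤ t → 0.69 ≤ Real.log t := fun t ht => by
    have h1 := Real.log_two_gt_d9
    have h2 := Real.log_le_log (by norm_num : (0 : ℝ) < 2) ht
    linarith
  have h69 := hlb b hbR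
  have h69' := hlb b' hbR'
  have hb0 : 0 < Real.log b := by linarith
  have hb0' : 0 < Real.log b' := by linarith
  obtain ⟨Λ, hΛ⟩ : ∃ Λ : ℝ, Λ = Real.log b + Real.log b' := ⟨_, rfl⟩
  have hΛ0 : 0 < Λ := by rw [hΛ]; linarith
  have hlim := (tendsto_rpow_atTop hη0).eventually_gt_atTop (6 * A * Λ)
  obtain ⟨Y0, hY0⟩ := Filter.eventually_atTop.1 hlim
  obtain ⟨X, hX⟩ : ∃ X : ℝ, X = max (max 1 Y0) (N0 * Real.log b + N0' * Real.log b') := ⟨_, rfl⟩
  have hX1 : 1 ≤ X := by rw [hX]; exact (le_max_left _ _).trans (le_max_left _ _)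
  have hXY : Y0 ≤ X := by rw [hX]; exact (le_max_right _ _).trans (le_max_left _ _)
  have hXN : (N0 : ℝ) * Real.log b + N0' * Real.log b' ≤ X := by rw [hX]; exact le_max_right _ _
  have hq0 : (0 : ℝ) ≤ N0 * Real.log b := by positivity
  have hq0' : (0 : ℝ) ≤ N0' * Real.log b' := by positivity
  have hgen : ∀ (l : ℝ) (M0 : ℕ), 0.69 ≤ l → (M0 : ℝ) * l ≤ X → ∃ M : ℕ, M0 ≤ M ∧
      X ≤ M * l ∧ (M : ℝ) ≤ 3 * X ∧ (0 : ℝ) < M := by
    intro l M0 hl hM0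
    have hl0 : 0 < l := by linarith
    refine ⟨⌈X / l⌉₊, ?_, ?_, ?_, ?_⟩
    · have h1 := Nat.le_ceil (X / l)
      have h2 : (M0 : ℝ) ≤ X / l := by rwa [le_div_iff₀ hl0]
      exact_mod_cast h2.trans h1
    · have h1 := Nat.le_ceil (X / l)
      rwa [div_le_iff₀ hl0] at h1
    · have h1 := Nat.ceil_lt_add_one (div_nonneg (by linarith : (0 : ℝ) ≤ X) hl0.le)
      have h2 : X / l ≤ 2 * X := by
        rw [div_le_iff₀ hl0]
        nlinarith
      linarith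
    · exact_mod_cast Nat.ceil_pos.2 (by positivity)
  obtain ⟨N, hN1, hN2, hN3, hN4⟩ := hgen (Real.log b) N0 h69 (by linarith)
  obtain ⟨N', hN1', hN2', hN3', hN4'⟩ := hgen (Real.log b') N0' h69' (by linarith)
  refine ⟨N, N', hN1, hN1', fun k k' n n' hk hk' hn hn' => ?_⟩
  obtain ⟨Y, hY⟩ : ∃ Y : ℝ, Y = 3 * X := ⟨_, rfl⟩
  rw [← hY] at hN3 hN3'
  have hY1 : 1 ≤ Y := by rw [hY]; linarith
  have hYθ : 1 ≤ Y ^ θ := Real.one_le_rpow hY1 hθ
  have hYη : 1 ≤ Y ^ η := Real.one_le_rpow hY1 hη0.le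
  have hlN : Real.log N ≤ Real.log Y := Real.log_le_log hN4 hN3
  have hlN' : Real.log N' ≤ Real.log Y := Real.log_le_log hN4' hN3'
  have hlY : 0 ≤ Real.log Y := Real.log_nonneg hY1
  have hpow : A ^ (n + n' + 1) ≤ A * Y ^ η := by
    rw [pow_succ, mul_comm]
    refine mul_le_mul_of_nonneg_left ?_ (by linarith)
    rw [← Real.rpow_natCast A (n + n')]
    have h1 : A ^ ((n + n' : ℕ) : ℝ) = Real.exp (Real.log A * ((n + n' : ℕ) : ℝ)) :=
      Real.rpow_def_of_pos (by linarith) _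
    have h2 : Y ^ η = Real.exp (Real.log Y * η) := Real.rpow_def_of_pos (by linarith) _
    rw [h1, h2, Real.exp_le_exp]
    push_cast
    have h3 : (n : ℝ) + n' ≤ 2 * c * Real.log Y := by nlinarith
    have h4 := mul_le_mul_of_nonneg_left h3 hlA
    have h5 := mul_le_mul_of_nonneg_right hcA hlY
    linarith
  have hk1 : (k : ℝ) + 1 ≤ 2 * Y ^ θ := by
    have := hk.trans (Real.rpow_le_rpow (Nat.cast_nonneg _) hN3 hθ)
    linarith
  have hk1' : (k' : ℝ) + 1 ≤ 2 * Y ^ θ := by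
    have := hk'.trans (Real.rpow_le_rpow (Nat.cast_nonneg _) hN3' hθ)
    linarith
  have hsum : ((k : ℝ) + 1) * Real.log b + (k' + 1) * Real.log b' ≤ 2 * Y ^ θ * Λ := by
    have h1 := mul_le_mul_of_nonneg_right hk1 hb0.le
    have h2 := mul_le_mul_of_nonneg_right hk1' hb0'.le
    rw [hΛ]
    linarith
  have hA0 : 0 < A := by linarith
  have hfin : A ^ (n + n' + 1) * ((k + 1) * Real.log b + (k' + 1) * Real.log b') ≤
      (A * Y ^ η) * (2 * Y ^ θ * Λ) :=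
    mul_le_mul hpow hsum (by positivity) (by positivity)
  have h1 := hY0 Y (by rw [hY]; linarith)
  have h2 : Y ^ η * Y ^ θ * Y ^ η = Y := by
    rw [← Real.rpow_add (by linarith), ← Real.rpow_add (by linarith)]
    have : η + θ + η = 1 := by rw [hη]; ring
    rw [this, Real.rpow_one]
  have h3 : 0 < Y ^ η * Y ^ θ := by positivity
  have h4 := mul_lt_mul_of_pos_left h1 h3
  rw [h2] at h4
  have h5 : (A * Y ^ η) * (2 * Y ^ θ * Λ) < X := by
    rw [hY] at h4 ⊢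
    linarith
  exact lt_min (by linarith) (by linarith)

/-- **At least one of the two numbers is hard.** -/
theorem hard_pair (u v : ℝ) (huv : JointR u v) (r : ℕ) (θ : ℝ) (hθ : 0 ≤ θ) (hθ1 : θ < 1) :
    Hard r θ u ∨ Hard r θ v := by
  obtain ⟨A, hA, h⟩ := Pool.Agent.R473.FP.cut_pair u v huv r
  obtain ⟨c, hc, hcon⟩ := contra A θ hA hθ hθ1
  by_contra hno
  rw [not_or] at hno
  obtain ⟨hu, hv⟩ := hno
  unfold Hard at hu hv
  push Not at hu hv
  obtain ⟨b, hb, N0, h1⟩ := hu c hc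
  obtain ⟨b', hb', N0', h1'⟩ := hv c hc
  obtain ⟨N, N', hN, hN', h2⟩ := hcon b b' hb hb' N0 N0'
  obtain ⟨k, E, hk, hC, hE⟩ := h1 N hN
  obtain ⟨k', E', hk', hC', hE'⟩ := h1' N' hN'
  exact absurd (h b b' hb hb' k k' N N' E E' hC hC') (not_le.2 (h2 k k' E.card E'.card hk hk' hE hE'))

end Pool.Agent.R473.HD
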